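import Pool.Agent.Helper12.MA.StB

/-!
# Project MA, module DEG

All cuts through `t` and `z` are trivial: excluded pairs.
-/

set_option autoImplicit false

namespace Pool.Agent.Helper30.MA

open Pool.Agent.Helper12.MA
open Pool.Agent.Helper51.AJ (IsMinor Planar Apex ExMinor Con Tch)
open Pool.Agent.Helper12.NK (rst Kc add cnt Pcy IsFace Cof plus)

private lemma sub_of_face {V : Type} {M : SimpleGraph V} {U F : Set V} (h : IsFace M U F) {a : V} (ha : a ∈ F) : a ∈ U := by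
  obtain ⟨m, c, hc, rfl⟩ := h
  exact hc.2.2.1 ha

private lemma two_faces {V : Type} [Finite V] (hF : StFNB) {M : SimpleGraph V} {U : Set V} (hP : Pn M U) {a b : V}
    (ha : a ∈ U) (hb : b ∈ U) (hab : M.Adj a b) {F F' D : Set V} (hF1 : IsFace M U F) (hF2 : IsFace M U F') (hD : IsFace M U D)
    (hne : F ≠ F') (a1 : a ∈ F) (b1 : b ∈ F) (a2 : a ∈ F') (b2 : b ∈ F') (a3 : a ∈ D) (b3 : b ∈ D) : D = F ∨ D = F' := by
  obtain ⟨X, Y, -, -, -, -, -, -, -, h⟩ := (hF V M U hP).1 a ha b hb hab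
  have h1 := h F hF1 a1 b1
  have h2 := h F' hF2 a2 b2
  have h3 := h D hD a3 b3
  rcases h1 with h1 | h1 <;> rcases h2 with h2 | h2
  · exact absurd (h1.trans h2.symm) hne
  · rcases h3 with h3 | h3
    · exact Or.inl (h3.trans h1.symm)
    · exact Or.inr (h3.trans h2.symm)
  · rcases h3 with h3 | h3
    · exact Or.inr (h3.trans h2.symm)
    · exact Or.inl (h3.trans h1.symm)
  · exact absurd (h1.trans h2.symm) hne

private lemma core {V : Type} [Finite V] {G : SimpleGraph V} {z v p q r r' t : V} {f1 f2 f3 f4 : Set V}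
    (hF : StFNB) (hB : StBAS) (cf : Cfg G z v p q r r' f1 f2 f3 f4) (tv : t ≠ v) (tz : t ≠ z) (tp : t ≠ p) (tq : t ≠ q)
    (tr : t ≠ r) (ts : t ≠ r') (hpl : Planar (rst G {t, v}ᶜ))
    (hN : ∀ c, G.Adj p c ↔ c = q ∨ c = v ∨ c = t ∨ c = z ∨ c = r') :
    t ∈ f1 ∧ ∀ Γ, IsFace G {t, v}ᶜ Γ → z ∈ Γ → ¬ (p ∈ Γ ∧ r ∈ Γ) ∧ ¬ (q ∈ Γ ∧ r' ∈ Γ) := by
  obtain ⟨vp, vq, vr, vs, pq, pr, ps, qr, qs, rs⟩ := cf.ds.ne
  have zv : G.Adj z v := (cf.ds.nb v).2 (by tauto)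
  have zp : G.Adj z p := (cf.ds.nb p).2 (by tauto)
  have zq : G.Adj z q := (cf.ds.nb q).2 (by tauto)
  have zr : G.Adj z r := (cf.ds.nb r).2 (by tauto)
  have zs : G.Adj z r' := (cf.ds.nb r').2 (by tauto)
  have nzv := G.ne_of_adj zv
  have nzp := G.ne_of_adj zp
  have nzq := G.ne_of_adj zq
  have nzr := G.ne_of_adj zr
  have nzs := G.ne_of_adj zs
  have pr' : G.Adj p r' := (hN r').2 (by tauto)
  have hPP : Pn (dl G p q) {v}ᶜ := ⟨(hB V G cf.bh).2.2.2.2.1 v p q, cf.ds.pl⟩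
  have hPt : Pn G {t, v}ᶜ := ⟨(hB V G cf.bh).2.1 t v, hpl⟩
  have mem1 : ∀ a, a ≠ v → a ∈ ({v}ᶜ : Set V) := fun a ha k => ha k
  have mem2 : ∀ a, a ≠ t → a ≠ v → a ∈ ({t, v}ᶜ : Set V) := fun a h1 h2 k => by
    rcases k with k | k
    · exact h1 k
    · exact h2 k
  constructor
  · obtain ⟨b, hb, hbz, hpb, -⟩ := (hF V (dl G p q) {v}ᶜ hPP).2.1 p (mem1 p vp.symm) z (mem1 z nzv)
      ⟨zp.symm, fun k => nzq k.2, fun k => nzp k.2⟩ f1 cf.i1 cf.p1 cf.z1
    rcases (hN b).1 hpb.1 with h | h | h | h | h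
    · exact absurd ⟨rfl, h⟩ hpb.2.1
    · exact absurd h (sub_of_face cf.i1 hb)
    · rw [← h]; exact hb
    · exact absurd h hbz
    · exfalso
      have h1 : r' ∈ f4 ∩ f1 := ⟨cf.s4, by rw [← h]; exact hb⟩
      rw [cf.x41] at h1
      rcases h1 with h1 | h1
      · exact nzs h1.symm
      · exact ps h1.symm
  -- the faces through the edge `p z`
  have tri1 : ∀ D, IsFace G {t, v}ᶜ D → z ∈ D → p ∈ D → D = {z, p, q} ∨ D = {z, p, r'} := by
    intro D hD hz hp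
    obtain ⟨b, hb, hbz, hpb, -⟩ := (hF V G {t, v}ᶜ hPt).2.1 p (mem2 p tp.symm vp.symm) z (mem2 z tz.symm nzv) zp.symm D hD hp hz
    rcases (hN b).1 hpb with h | h | h | h | h
    · left
      rw [h] at hb
      exact (hF V G {t, v}ᶜ hPt).2.2.1 D hD z hz p hp q hb zp cf.ds.pq zq
    · exact absurd (Or.inr h) (sub_of_face hD hb)
    · exact absurd (Or.inl h) (sub_of_face hD hb)
    · exact absurd h hbz
    · right
      rw [h] at hb
      exact (hF V G {t, v}ᶜ hPt).2.2.1 D hD z hz p hp r' hb zp pr' zs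
  have ex12 : IsFace G {t, v}ᶜ {z, p, q} ∧ IsFace G {t, v}ᶜ {z, p, r'} := by
    obtain ⟨X, Y, hX, hY, hXY, zX, pX, zY, pY, -⟩ := (hF V G {t, v}ᶜ hPt).1 z (mem2 z tz.symm nzv) p (mem2 p tp.symm vp.symm) zp
    rcases tri1 X hX zX pX with h1 | h1 <;> rcases tri1 Y hY zY pY with h2 | h2
    · exact absurd (h1.trans h2.symm) hXY
    · rw [h1] at hX
      rw [h2] at hY
      exact ⟨hX, hY⟩
    · rw [h1] at hX
      rw [h2] at hY
      exact ⟨hY, hX⟩
    · exact absurd (h1.trans h2.symm) hXY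
  have rn1 : r ∉ ({z, p, q} : Set V) := fun k => by
    rcases k with k | k | k
    · exact nzr k.symm
    · exact pr k.symm
    · exact qr (Set.mem_singleton_iff.1 k).symm
  have rn2 : r ∉ ({z, p, r'} : Set V) := fun k => by
    rcases k with k | k | k
    · exact nzr k.symm
    · exact pr k.symm
    · exact rs (Set.mem_singleton_iff.1 k)
  have sn1 : r' ∉ ({z, p, q} : Set V) := fun k => by
    rcases k with k | k | k
    · exact nzs k.symm
    · exact ps k.symm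
    · exact qs (Set.mem_singleton_iff.1 k).symm
  have qn2 : q ∉ ({z, p, r'} : Set V) := fun k => by
    rcases k with k | k | k
    · exact nzq k.symm
    · exact pq k.symm
    · exact qs (Set.mem_singleton_iff.1 k)
  intro Γ hΓ hz
  constructor
  · rintro ⟨hp, hr⟩
    rcases tri1 Γ hΓ hz hp with h | h
    · rw [h] at hr; exact rn1 hr
    · rw [h] at hr; exact rn2 hr
  · rintro ⟨hq, hs⟩
    have hr : r ∉ Γ := by
      intro hr
      obtain ⟨b, -, -, -, hall⟩ := (hF V G {t, v}ᶜ hPt).2.1 z (mem2 z tz.symm nzv) q (mem2 q tq.symm vq.symm) zq Γ hΓ hz hq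
      have e1 := (hall r hr zr).resolve_left qr.symm
      have e2 := (hall r' hs zs).resolve_left qs.symm
      exact rs (e1.trans e2.symm)
    obtain ⟨D, -, hD, -, -, zD, rD, -, -, -⟩ := (hF V G {t, v}ᶜ hPt).1 z (mem2 z tz.symm nzv) r (mem2 r tr.symm vr.symm) zr
    obtain ⟨b, hb, hbr, hzb, -⟩ := (hF V G {t, v}ᶜ hPt).2.1 z (mem2 z tz.symm nzv) r (mem2 r tr.symm vr.symm) zr D hD zD rD
    rcases (cf.ds.nb b).1 hzb with h | h | h | h | h
    · exact absurd (Or.inr h) (sub_of_face hD hb)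
    · rw [h] at hb
      rcases tri1 D hD zD hb with h1 | h1
      · rw [h1] at rD; exact rn1 rD
      · rw [h1] at rD; exact rn2 rD
    · rw [h] at hb
      have hne : ({z, p, q} : Set V) ≠ Γ := fun k => sn1 (by rw [k]; exact hs)
      rcases two_faces hF hPt (mem2 z tz.symm nzv) (mem2 q tq.symm vq.symm) zq ex12.1 hΓ hD hne (Or.inl rfl)
        (Or.inr (Or.inr rfl)) hz hq zD hb with h1 | h1
      · rw [h1] at rD; exact rn1 rD
      · rw [h1] at rD; exact hr rD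
    · exact hbr h
    · rw [h] at hb
      have hne : ({z, p, r'} : Set V) ≠ Γ := fun k => qn2 (by rw [k]; exact hq)
      rcases two_faces hF hPt (mem2 z tz.symm nzv) (mem2 r' ts.symm vs.symm) zs ex12.2 hΓ hD hne (Or.inl rfl)
        (Or.inr (Or.inr rfl)) hz hs zD hb with h1 | h1
      · rw [h1] at rD; exact rn2 rD
      · rw [h1] at rD; exact hr rD

private lemma half {V : Type} [Finite V] {G : SimpleGraph V} {z v p q r r' t : V} {f1 f2 f3 f4 : Set V}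
    (hF : StFNB) (hB : StBAS) (hS : StSYM) (cf : Cfg G z v p q r r' f1 f2 f3 f4) (tv : t ≠ v) (tz : t ≠ z) (tp : t ≠ p)
    (tq : t ≠ q) (tr : t ≠ r) (ts : t ≠ r') (hpl : Planar (rst G {t, v}ᶜ)) (hD : Dg G v t p q) :
    (t ∈ f1 ∧ ∀ Γ, IsFace G {t, v}ᶜ Γ → z ∈ Γ → ¬ (p ∈ Γ ∧ r ∈ Γ) ∧ ¬ (q ∈ Γ ∧ r' ∈ Γ)) ∨
    (t ∈ f4 ∧ ∀ Γ, IsFace G {t, v}ᶜ Γ → z ∈ Γ → ¬ (p ∈ Γ ∧ r' ∈ Γ) ∧ ¬ (q ∈ Γ ∧ r ∈ Γ)) := by
  have zv : G.Adj z v := (cf.ds.nb v).2 (by tauto)
  have zp : G.Adj z p := (cf.ds.nb p).2 (by tauto)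
  have zq : G.Adj z q := (cf.ds.nb q).2 (by tauto)
  obtain ⟨a, b, hN, hab, aq, av, -, bq, bv, -, -⟩ := hD
  -- the common neighbour `b` of `z` and `p`
  obtain ⟨b, hzb, bq, bv, hN⟩ : ∃ b, G.Adj z b ∧ b ≠ q ∧ b ≠ v ∧ ∀ c, G.Adj p c ↔ c = q ∨ c = v ∨ c = t ∨ c = z ∨ c = b := by
    rcases (hN z).1 zp.symm with h | h | h | h | h
    · exact absurd h (G.ne_of_adj zq)
    · exact absurd h (G.ne_of_adj zv)
    · exact absurd h.symm tz
    · rw [← h] at hab hN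
      exact ⟨b, hab, bq, bv, hN⟩
    · rw [← h] at hab hN
      refine ⟨a, hab.symm, aq, av, fun c => (hN c).trans ?_⟩
      tauto
  have hpb : G.Adj p b := (hN b).2 (by tauto)
  rcases (cf.ds.nb b).1 hzb with h | h | h | h | h
  · exact absurd h bv
  · exact absurd h.symm (G.ne_of_adj hpb)
  · exact absurd h bq
  · right
    rw [h] at hN
    exact core hF hB (hS V G z v p q r r' f1 f2 f3 f4 cf).2.1 tv tz tp tq ts tr hpl hN
  · left
    rw [h] at hN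
    exact core hF hB cf tv tz tp tq tr ts hpl hN

theorem hDEG : StFNB → StBAS → StSYM → StDEG := by
  intro hF hB hS V _ G z v p q r r' f1 f2 f3 f4 cf t tv tz tp tq tr ts hpl hD
  rcases hD with hD | hD
  · rcases half hF hB hS cf tv tz tp tq tr ts hpl hD with h | h
    · exact Or.inl ⟨Or.inl h.1, h.2⟩
    · exact Or.inr ⟨Or.inr h.1, h.2⟩
  · rcases half hF hB hS (hS V G z v p q r r' f1 f2 f3 f4 cf).1 tv tz tq tp ts tr hpl hD with h | h
    · exact Or.inl ⟨Or.inr h.1, fun Γ h1 h2 => ⟨(h.2 Γ h1 h2).2, (h.2 Γ h1 h2).1⟩⟩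
    · exact Or.inr ⟨Or.inl h.1, fun Γ h1 h2 => ⟨(h.2 Γ h1 h2).2, (h.2 Γ h1 h2).1⟩⟩

end Pool.Agent.Helper30.MA
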