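import Pool.Agent.Helper12.MA.StC

/-!
# Project MA, module PVA

If `v` is adjacent to `p` then `N(v) = {z, p, q, w₁, w₂}` with `w₁ ∈ f4`, `w₂ ∈ f1`, and `q` has type TP.
-/

set_option autoImplicit false

namespace Pool.Agent.Helper30.MA

open Pool.Agent.Helper12.MA
open Pool.Agent.Helper51.AJ (IsMinor Planar Apex ExMinor Con Tch)
open Pool.Agent.Helper12.NK (rst Kc add cnt Pcy IsFace Cof plus)

private lemma cof_symm {V : Type} {M : SimpleGraph V} {U : Set V} {a b : V} (h : Cof M U a b) : Cof M U b a := by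
  obtain ⟨F, hF, ha, hb⟩ := h
  exact ⟨F, hF, hb, ha⟩

/-- the elements of `W' ∖ {p}` have type TH or TP -/
private lemma types {V : Type} [Finite V] {G : SimpleGraph V} {z v p q r r' : V} {f1 f2 f3 f4 : Set V}
    (hC : StCLS) (cf : Cfg G z v p q r r' f1 f2 f3 f4) (hp : G.Adj v p) {w : V} (hw : G.Adj v w) (hz : w ≠ z) (hwp : w ≠ p) :
    (∃ F, TH G z v w F) ∨ TP G z v p q w := by
  have hzp : p ≠ z := by
    have h1 : G.Adj z p := (cf.ds.nb p).2 (Or.inr (Or.inl rfl))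
    exact (G.ne_of_adj h1).symm
  rcases (hC V G z v p q r r' f1 f2 f3 f4 cf).1 w hw hz with h | h | h | ⟨t, Γ, h⟩
  · exact Or.inl h
  · exact Or.inr h
  · exfalso
    have h1 : p ∈ {a | G.Adj v a} \ {z, w} := ⟨hp, fun k => by
      rcases k with k | k
      · exact hzp k
      · exact hwp (Set.mem_singleton_iff.1 k).symm⟩
    rcases h h1 with k | k
    · exact cf.ds.ne.2.2.2.2.1 k
    · exact cf.npq (cof_symm k)
  · exfalso
    have h1 : p ∈ {a | G.Adj v a} \ {w, t} := ⟨hp, fun k => by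
      rcases k with k | k
      · exact hwp k.symm
      · exact h.1.tp (Set.mem_singleton_iff.1 k).symm⟩
    exact h.1.p (h.2.2.2 h1)

/-- the last step -/
private lemma fin {V : Type} [Finite V] {G : SimpleGraph V} {z v p q r r' : V} {f1 f2 f3 f4 : Set V}
    (hR : StCRN) (cf : Cfg G z v p q r r' f1 f2 f3 f4) {w₁ w₂ : V} (h1 : w₁ ≠ z) (h2 : w₂ ≠ z)
    (hN : ∀ a, G.Adj v a ↔ a = z ∨ a = p ∨ a = q ∨ a = w₁ ∨ a = w₂) (hT : TP G z v p q q)
    (c1 : Cof (dl G p q) {v}ᶜ p w₁) (c2 : Cof (dl G p q) {v}ᶜ p w₂)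
    (m1 : w₁ ∈ (f3 ∪ f4) \ {z}) (m2 : w₂ ∈ (f1 ∪ f2) \ {z}) :
    ∃ w₁ ∈ f4, ∃ w₂ ∈ f1, w₁ ≠ z ∧ w₂ ≠ z ∧ (∀ a, G.Adj v a ↔ a = z ∨ a = p ∨ a = q ∨ a = w₁ ∨ a = w₂) ∧
      TP G z v p q q := by
  obtain ⟨-, r2, r3, -, -, -⟩ := hR V G z v p q r r' f1 f2 f3 f4 cf
  have k1 : w₁ ∈ f4 := by
    rcases m1.1 with h | h
    · rw [r3 w₁ h h1 c1]
      exact cf.s4
    · exact h
  have k2 : w₂ ∈ f1 := by
    rcases m2.1 with h | h
    · exact h
    · rw [r2 w₂ h h2 c2]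
      exact cf.r1
  exact ⟨w₁, k1, w₂, k2, h1, h2, hN, hT⟩

theorem hPVA : StFNB → StBAS → StCRN → StHFA → StCLS → StHTR → StPVA := by
  intro hF hB hR hH hC hT V _ G z v p q r r' f1 f2 f3 f4 cf hp
  obtain ⟨-, -, -, b4, b5, -, -⟩ := hB V G cf.bh
  obtain ⟨-, c2, c3, -⟩ := hC V G z v p q r r' f1 f2 f3 f4 cf
  obtain ⟨hPn, -, -, -, hfa⟩ := hH V G z v p q r r' f1 f2 f3 f4 cf
  have hzv : G.Adj v z := ((cf.ds.nb v).2 (Or.inl rfl)).symm
  have hzp : z ≠ p := G.ne_of_adj ((cf.ds.nb p).2 (Or.inr (Or.inl rfl)))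
  -- the set `D` of the other neighbours
  set D : Set V := {a | G.Adj v a} \ {z, p} with hD
  set D1 : Set V := {w | w ∈ D ∧ ∃ F, TH G z v w F} with hD1
  set D2 : Set V := {w | w ∈ D ∧ TP G z v p q w} with hD2
  have mD : ∀ a, a ∈ D ↔ G.Adj v a ∧ a ≠ z ∧ a ≠ p := by
    intro a
    simp [hD]
  have hDu : D = D1 ∪ D2 := by
    ext w
    constructor
    · intro hw
      have h1 := (mD w).1 hw
      rcases types hC cf hp h1.1 h1.2.1 h1.2.2 with h | h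
      · exact Or.inl ⟨hw, h⟩
      · exact Or.inr ⟨hw, h⟩
    · rintro (h | h)
      · exact h.1
      · exact h.1
  have n3 : 3 ≤ D.ncard := by
    have h1 := b4 v
    have h2 := Set.le_ncard_sdiff {z, p} {a | G.Adj v a}
    have h3 : ({z, p} : Set V).ncard = 2 := Set.ncard_pair hzp
    rw [← hD] at h2
    omega
  have n2 : D2.ncard ≤ 1 := by
    rw [Set.ncard_le_one_iff]
    intro a b ha hb
    by_contra hab
    apply c3
    intro x hx
    by_cases hxa : x = a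
    · subst hxa
      exact hb.2 ⟨hx.1, fun k => by
        rcases k with k | k
        · exact hx.2 k
        · exact hab (Set.mem_singleton_iff.1 k)⟩
    · exact ha.2 ⟨hx.1, fun k => by
        rcases k with k | k
        · exact hx.2 k
        · exact hxa (Set.mem_singleton_iff.1 k)⟩
  have n1 : D1.ncard ≤ 2 := by
    by_contra hn
    obtain ⟨a, b, c, ha, hb, hc, hab, hac, hbc⟩ := (Set.two_lt_ncard_iff (Set.toFinite D1)).1 (not_le.1 hn)
    obtain ⟨ha, F₁, h1⟩ := ha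
    obtain ⟨hb, F₂, h2⟩ := hb
    obtain ⟨hc, F₃, h3⟩ := hc
    rw [mD] at ha hb hc
    exact hT V G z v p q r r' f1 f2 f3 f4 cf a b c F₁ F₂ F₃ ha.1 hb.1 hc.1 ha.2.1 hb.2.1 hc.2.1 hab hbc hac h1 h2 h3
  have n4 : D.ncard ≤ D1.ncard + D2.ncard := by
    rw [hDu]
    exact Set.ncard_union_le D1 D2
  obtain ⟨w₃, e3⟩ := Set.ncard_eq_one.1 (show D2.ncard = 1 by omega)
  obtain ⟨w₁, w₂, h12, e12⟩ := Set.ncard_eq_two.1 (show D1.ncard = 2 by omega)
  have eD : D = {w₁, w₂, w₃} := by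
    rw [hDu, e3, e12]
    ext x
    simp only [Set.mem_union, Set.mem_insert_iff, Set.mem_singleton_iff]
    tauto
  have m1 : w₁ ∈ D1 := by rw [e12]; exact Or.inl rfl
  have m2 : w₂ ∈ D1 := by rw [e12]; exact Or.inr rfl
  have m3 : w₃ ∈ D2 := by rw [e3]; exact rfl
  have h13 : w₃ ≠ w₁ := by
    intro h
    have h1 : D = {w₁, w₂} := by
      rw [eD, h]
      ext x
      simp only [Set.mem_insert_iff, Set.mem_singleton_iff]
      tauto
    rw [h1, Set.ncard_pair h12] at n3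
    omega
  have h23 : w₃ ≠ w₂ := by
    intro h
    have h1 : D = {w₁, w₂} := by
      rw [eD, h]
      ext x
      simp only [Set.mem_insert_iff, Set.mem_singleton_iff]
      tauto
    rw [h1, Set.ncard_pair h12] at n3
    omega
  obtain ⟨m1, F₁, t1⟩ := m1
  obtain ⟨m2, F₂, t2⟩ := m2
  obtain ⟨m3, t3⟩ := m3
  rw [mD] at m1 m2 m3
  have g1 : ∀ a, G.Adj v a → a ≠ z → a ≠ w₁ → a ∈ F₁ := fun a ha h1 h2 => t1.2 ⟨ha, fun k => by
    rcases k with k | k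
    · exact h1 k
    · exact h2 (Set.mem_singleton_iff.1 k)⟩
  have g2 : ∀ a, G.Adj v a → a ≠ z → a ≠ w₂ → a ∈ F₂ := fun a ha h1 h2 => t2.2 ⟨ha, fun k => by
    rcases k with k | k
    · exact h1 k
    · exact h2 (Set.mem_singleton_iff.1 k)⟩
  have g3 : ∀ a, G.Adj v a → a ≠ z → a ≠ w₃ → a = p ∨ Cof (dl G p q) {v}ᶜ p a := fun a ha h1 h2 => t3 ⟨ha, fun k => by
    rcases k with k | k
    · exact h1 k
    · exact h2 (Set.mem_singleton_iff.1 k)⟩
  have hF2 : w₂ ∉ F₂ := by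
    intro h
    apply c2 F₂ t2.1
    intro x hx
    by_cases hx2 : x = w₂
    · rw [hx2]; exact h
    · exact g2 x hx.1 (fun k => hx.2 k) hx2
  have hne : F₁ ≠ F₂ := by
    intro h
    apply hF2
    rw [← h]
    exact g1 w₂ m2.1 m2.2.1 h12.symm
  have p1 : p ∈ F₁ := g1 p hp hzp.symm m1.2.2.symm
  have p2 : p ∈ F₂ := g2 p hp hzp.symm m2.2.2.symm
  have q1 : w₃ ∈ F₁ := g1 w₃ m3.1 m3.2.1 h13
  have q2 : w₃ ∈ F₂ := g2 w₃ m3.1 m3.2.1 h23
  have hadj : G.Adj p w₃ := by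
    by_contra hna
    exact hne ((hF V G {z, v}ᶜ hPn).2.2.2.1 F₁ F₂ t1.1 t2.1 p w₃ p1 q1 p2 q2 m3.2.2.symm hna)
  have hnc : ¬ Cof (dl G p q) {v}ᶜ p w₃ := by
    intro h
    apply c3
    intro x hx
    by_cases hx3 : x = w₃
    · rw [hx3]; exact Or.inr h
    · exact g3 x hx.1 (fun k => hx.2 k) hx3
  have hq : w₃ = q := by
    by_contra hq
    apply hnc
    have hPP : Pn (dl G p q) {v}ᶜ := ⟨b5 v p q, cf.ds.pl⟩
    refine (hF V (dl G p q) {v}ᶜ hPP).2.2.2.2.2 p (fun k => G.ne_of_adj hp ?_) w₃ (fun k => G.ne_of_adj m3.1 ?_)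
      ⟨hadj, fun k => hq k.2, fun k => cf.ds.ne.2.2.2.2.1 k.1⟩
    · exact (Set.mem_singleton_iff.1 k).symm
    · exact (Set.mem_singleton_iff.1 k).symm
  subst hq
  have cw1 : Cof (dl G p w₃) {v}ᶜ p w₁ := (g3 w₁ m1.1 m1.2.1 h13.symm).resolve_left m1.2.2
  have cw2 : Cof (dl G p w₃) {v}ᶜ p w₂ := (g3 w₂ m2.1 m2.2.1 h23.symm).resolve_left m2.2.2
  have hN : ∀ a, G.Adj v a ↔ a = z ∨ a = p ∨ a = w₃ ∨ a = w₁ ∨ a = w₂ := by
    intro a
    constructor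
    · intro ha
      by_cases haz : a = z
      · exact Or.inl haz
      by_cases hap : a = p
      · exact Or.inr (Or.inl hap)
      have h1 : a ∈ D := (mD a).2 ⟨ha, haz, hap⟩
      rw [eD] at h1
      simp only [Set.mem_insert_iff, Set.mem_singleton_iff] at h1
      tauto
    · rintro (h | h | h | h | h)
      · rw [h]; exact hzv
      · rw [h]; exact hp
      · rw [h]; exact m3.1
      · rw [h]; exact m1.1
      · rw [h]; exact m2.1
  have w2F : w₂ ∈ F₁ := g1 w₂ m2.1 m2.2.1 h12.symm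
  have w1F : w₁ ∈ F₂ := g2 w₁ m1.1 m1.2.1 h12
  have e1 : F₁ = (f1 ∪ f2) \ {z} ∨ F₁ = (f3 ∪ f4) \ {z} := by
    rcases hfa F₁ t1.1 with h | h | h
    · exact Or.inl h
    · exact Or.inr h
    · exact absurd ⟨F₁, h.1, p1, q1⟩ cf.npq
  have e2 : F₂ = (f1 ∪ f2) \ {z} ∨ F₂ = (f3 ∪ f4) \ {z} := by
    rcases hfa F₂ t2.1 with h | h | h
    · exact Or.inl h
    · exact Or.inr h
    · exact absurd ⟨F₂, h.1, p2, q2⟩ cf.npq
  rcases e1 with e1 | e1 <;> rcases e2 with e2 | e2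
  · exact absurd (e1.trans e2.symm) hne
  · rw [e1] at w2F
    rw [e2] at w1F
    exact fin hR cf m1.2.1 m2.2.1 hN t3 cw1 cw2 w1F w2F
  · rw [e1] at w2F
    rw [e2] at w1F
    refine fin hR cf m2.2.1 m1.2.1 (fun a => (hN a).trans ?_) t3 cw2 cw1 w2F w1F
    tauto
  · exact absurd (e1.trans e2.symm) hne

end Pool.Agent.Helper30.MA
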